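import Pool.Agent.H352R4.CA.End

/-!
# Continuous analytic capacity and arbitrary sets (MP_437602_an)

For every set `M` of the plane (not necessarily compact or Borel) and every set `K` which is closed
or open one has `α(M ∪ K) ≤ α(M) + α(K)`.  In particular closed sets of continuous analytic
capacity zero can be deleted from arbitrary sets: `α(M \ K) = α(M)`.

The starting library `Pool.Agent.H352R4.CA` has the case of two compact sets, and the deletion of a
compact null set from a compact set.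
-/

set_option autoImplicit false

open MeasureTheory Complex Filter Topology Metric
open scoped ENNReal NNReal
open Pool.Agent.H352R4.CA

namespace Pool.Agent.Results.MP_437602_an.OpenOrClosedSets

/-- The continuous analytic capacity of an arbitrary set: the supremum of `|lim z f(z)|` over the
compact subsets `F` of `S` and the continuous functions `f` on the plane which are bounded by `1`,
holomorphic off `F` and vanish at infinity. -/
noncomputable def continuousCapacity (S : Set ℂ) : ℝ≥0∞ :=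
  ⨆ (F : Set ℂ) (_ : IsCompact F) (_ : F ⊆ S) (f : ℂ → ℂ) (c : ℂ)
    (_ : Continuous f ∧ DifferentiableOn ℂ f Fᶜ ∧ (∀ z, ‖f z‖ ≤ 1) ∧
          Tendsto f (cocompact ℂ) (𝓝 0) ∧
          Tendsto (fun z => z * f z) (cocompact ℂ) (𝓝 c)),
    ((‖c‖₊ : ℝ≥0) : ℝ≥0∞)

/-- removing a compact set costs at most its capacity -/
lemma alpha_le_sdiff_add {E K : Set ℂ} (hE : IsCompact E) (hK : IsCompact K) :
    alpha E ≤ sSup {c : ℝ | ∃ L : Set ℂ, IsCompact L ∧ L ⊆ E \ K ∧ c = alpha L} + alpha K := by
  set T : Set ℝ := {c : ℝ | ∃ L : Set ℂ, IsCompact L ∧ L ⊆ E \ K ∧ c = alpha L} with hT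
  have hbd : BddAbove T := by
    refine ⟨alpha E, ?_⟩
    rintro c ⟨L, hL, hLE, rfl⟩
    exact alpha_mono hE (hLE.trans Set.sdiff_subset)
  have hT0 : 0 ≤ sSup T := by
    refine Real.sSup_nonneg ?_
    rintro c ⟨L, hL, hLE, rfl⟩
    exact alpha_nonneg L
  refine Real.sSup_le ?_ (add_nonneg hT0 (alpha_nonneg K))
  rintro c ⟨f, l, hf, hb, rfl⟩
  obtain ⟨ω, hω, ho⟩ := exists_mod hf.cont hf.zero
  have key : ∀ η : ℝ, 0 < η → η < 1 →
      (1 - η) * ‖l‖ ≤ (1 + η) * (sSup T + (alpha K + η)) := by
    intro η hη hη1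
    obtain ⟨Θ, hΘ0, hΘm, hΘl, hm⟩ := main hω hη hη1
    have hεpos : ∀ n : ℕ, 0 < (1:ℝ) / ((n:ℝ) + 1) := fun n => by positivity
    have hev := al_limit hK (Ωn := fun _ => Θ) (Θ := Θ) (fun _ => hΘm) hΘ0 hΘm hΘl
      (fun s _ => Eventually.of_forall fun _ => le_rfl) hεpos
      tendsto_one_div_add_atTop_nhds_zero_nat hη
    obtain ⟨n, hn⟩ := hev.exists
    set r : ℝ := (1:ℝ) / ((n:ℝ) + 1) with hr
    have hrpos : 0 < r := hεpos n
    have hKr : al Θ (cthickening r K) ≤ alpha K + η := by
      have h1 : al Θ K ≤ alpha K := al_le_alpha hK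
      have h2 : al Θ (cthickening r K) ≤ al Θ K + η := hn
      linarith
    have cA : IsCompact (E \ thickening r K) := hE.diff isOpen_thickening
    have cB : IsCompact (E ∩ cthickening r K) := hE.inter_right isClosed_cthickening
    have hcK : IsCompact (cthickening r K) := hK.cthickening
    have hsub : (E \ thickening r K) ∪ (E ∩ cthickening r K) = E := by
      ext z
      constructor
      · rintro (h | h)
        · exact h.1
        · exact h.1
      · intro hz
        by_cases h : z ∈ thickening r K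
        · exact Or.inr ⟨hz, thickening_subset_cthickening r K h⟩
        · exact Or.inl ⟨hz, h⟩
    have h1 := hm (E \ thickening r K) (E ∩ cthickening r K) cA cB f l (by rw [hsub]; exact hf) hb ho
    refine h1.trans ?_
    have h2 : al Θ (E \ thickening r K) ≤ sSup T := by
      refine (al_le_alpha cA).trans (le_csSup hbd ⟨E \ thickening r K, cA, ?_, rfl⟩)
      intro z hz
      exact ⟨hz.1, fun hzK => hz.2 (self_subset_thickening hrpos K hzK)⟩
    have h3 : al Θ (E ∩ cthickening r K) ≤ alpha K + η :=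
      (al_mono hcK (fun s _ => le_rfl) Set.inter_subset_right).trans hKr
    apply mul_le_mul_of_nonneg_left (add_le_add h2 h3) (by linarith)
  have t1 : Tendsto (fun η : ℝ => (1 - η) * ‖l‖) (𝓝[>] 0) (𝓝 ((1 - 0) * ‖l‖)) := by
    have : Continuous fun η : ℝ => (1 - η) * ‖l‖ := by fun_prop
    exact (this.tendsto 0).mono_left nhdsWithin_le_nhds
  have t2 : Tendsto (fun η : ℝ => (1 + η) * (sSup T + (alpha K + η))) (𝓝[>] 0)
      (𝓝 ((1 + 0) * (sSup T + (alpha K + 0)))) := by
    have : Continuous fun η : ℝ => (1 + η) * (sSup T + (alpha K + η)) := by fun_prop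
    exact (this.tendsto 0).mono_left nhdsWithin_le_nhds
  have h4 := le_of_tendsto_of_tendsto t1 t2 (by
    filter_upwards [Ioo_mem_nhdsGT (show (0:ℝ) < 1 by norm_num)] with η hη
    exact key η hη.1 hη.2)
  simpa using h4

lemma ofReal_sSup_le {X : Set ℝ} {B : ℝ≥0∞} (h : ∀ x ∈ X, ENNReal.ofReal x ≤ B) :
    ENNReal.ofReal (sSup X) ≤ B := by
  by_cases hB : B = ⊤
  · rw [hB]; exact le_top
  · rw [ENNReal.ofReal_le_iff_le_toReal hB]
    refine Real.sSup_le ?_ ENNReal.toReal_nonneg
    intro x hx
    exact (ENNReal.ofReal_le_iff_le_toReal hB).1 (h x hx)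

lemma capacity_eq (S : Set ℂ) :
    continuousCapacity S = ⨆ (F : Set ℂ) (_ : IsCompact F) (_ : F ⊆ S), ENNReal.ofReal (alpha F) := by
  unfold continuousCapacity
  refine iSup_congr fun F => iSup_congr fun hF => iSup_congr fun hFS => le_antisymm ?_ ?_
  · refine iSup_le fun f => iSup_le fun c => iSup_le fun H => ?_
    obtain ⟨h1, h2, h3, _, h5⟩ := H
    have h6 : ‖c‖ ≤ alpha F := le_csSup (alpha_bdd hF) ⟨f, c, ⟨h1, h2, h5⟩, h3, rfl⟩
    have h7 : ((‖c‖₊ : ℝ≥0) : ℝ≥0∞) = ENNReal.ofReal ‖c‖ := by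
      rw [ofReal_norm]; rfl
    rw [h7]
    exact ENNReal.ofReal_le_ofReal h6
  · unfold alpha
    refine ofReal_sSup_le ?_
    rintro x ⟨f, l, H, hb, rfl⟩
    have h7 : ENNReal.ofReal ‖l‖ = ((‖l‖₊ : ℝ≥0) : ℝ≥0∞) := by
      rw [ofReal_norm]; rfl
    rw [h7]
    exact le_iSup_of_le f (le_iSup_of_le l (le_iSup_of_le
      ⟨H.cont, H.hol, hb, H.zero, H.lim⟩ le_rfl))

lemma alpha_le_capacity {F S : Set ℂ} (hF : IsCompact F) (hFS : F ⊆ S) :
    ENNReal.ofReal (alpha F) ≤ continuousCapacity S := by
  rw [capacity_eq]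
  exact le_iSup_of_le F (le_iSup_of_le hF (le_iSup_of_le hFS le_rfl))

lemma compact_split {F K A B : Set ℂ} (hF : IsCompact F) (hK : IsCompact K) (h1 : F \ K ⊆ A)
    (h2 : K ⊆ B) : ENNReal.ofReal (alpha F) ≤ continuousCapacity A + continuousCapacity B := by
  refine (ENNReal.ofReal_le_ofReal (alpha_le_sdiff_add hF hK)).trans ?_
  refine ENNReal.ofReal_add_le.trans (add_le_add ?_ (alpha_le_capacity hK h2))
  refine ofReal_sSup_le ?_
  rintro c ⟨L, hL, hLE, rfl⟩
  exact alpha_le_capacity hL (hLE.trans h1)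

lemma capacity_mono {A B : Set ℂ} (h : A ⊆ B) : continuousCapacity A ≤ continuousCapacity B := by
  rw [capacity_eq A]
  exact iSup_le fun F => iSup_le fun hF => iSup_le fun hFA => alpha_le_capacity hF (hFA.trans h)

/-- For every set `M` and every closed or open set `K`: `α(M ∪ K) ≤ α(M) + α(K)`; and if moreover
`K` is closed with `α(K) = 0`, then `α(M \ K) = α(M)`. -/
theorem result (M K : Set ℂ) :
    (IsClosed K ∨ IsOpen K →
      continuousCapacity (M ∪ K) ≤ continuousCapacity M + continuousCapacity K) ∧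
    (IsClosed K ∨ IsOpen K → continuousCapacity K = 0 →
      continuousCapacity (M \ K) = continuousCapacity M) := by
  have main : ∀ M : Set ℂ, (IsClosed K ∨ IsOpen K) →
      continuousCapacity (M ∪ K) ≤ continuousCapacity M + continuousCapacity K := by
    intro M h
    rw [capacity_eq (M ∪ K)]
    refine iSup_le fun F => iSup_le fun hF => iSup_le fun hFM => ?_
    rcases h with h | h
    · refine compact_split hF (hF.inter_right h) ?_ Set.inter_subset_right
      rintro z ⟨hz, hz2⟩
      rcases hFM hz with h3 | h3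
      · exact h3
      · exact absurd ⟨hz, h3⟩ hz2
    · rw [add_comm]
      refine compact_split hF (hF.diff h) ?_ ?_
      · rintro z ⟨hz, hz2⟩
        by_contra h3
        exact hz2 ⟨hz, h3⟩
      · rintro z ⟨hz, hz2⟩
        rcases hFM hz with h3 | h3
        · exact h3
        · exact absurd h3 hz2
  refine ⟨main M, fun h h0 => le_antisymm (capacity_mono Set.sdiff_subset) ?_⟩
  have h1 := main (M \ K) h
  rw [h0, add_zero] at h1
  refine (capacity_mono ?_).trans h1
  intro z hz
  by_cases h2 : z ∈ K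
  · exact Or.inr h2
  · exact Or.inl ⟨hz, h2⟩

end Pool.Agent.Results.MP_437602_an.OpenOrClosedSets
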